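import Pool.Agent.TH647.NR.Alg

/-!
# Algebraic near relations between `e` and an arbitrary complex number

For polynomials `P ∈ ℤ[x][y]` and any complex number `t`, for instance `t = π`.
-/

set_option autoImplicit false

namespace Pool.Agent.Results.MP_a49cf6_nt.AlgebraicNearRelations

open Polynomial

/-- The height: the largest absolute value of a coefficient of `P ∈ ℤ[x][y]`. -/
noncomputable def height (P : ℤ[X][X]) : ℕ :=
  P.support.sup fun j => (P.coeff j).support.sup fun i => ((P.coeff j).coeff i).natAbs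

/-- The value `P(e, t)` of `P ∈ ℤ[x][y]` at `x = e`, `y = t`. -/
noncomputable def value (t : ℂ) (P : ℤ[X][X]) : ℂ :=
  ∑ j ∈ P.support, aeval (Complex.exp 1) (P.coeff j) * t ^ j

/-- The irreducible polynomials `P ∈ ℤ[x][y]` of degree at most `D` in `x` and of degree between
`1` and `D` in `y`, normalised to have positive leading coefficient (one of `P`, `-P`). -/
def Irr (D : ℕ) : Set ℤ[X][X] :=
  {P | Irreducible P ∧ 0 < P.natDegree ∧ P.natDegree ≤ D ∧ (∀ j, (P.coeff j).natDegree ≤ D) ∧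
    0 < P.leadingCoeff.leadingCoeff}

/-- The near relations: the `P` in `Irr D` of height at most `Y` with
`|P(e, t)| ≤ (height P) ^ (-w)`. -/
def Near (t : ℂ) (D : ℕ) (w Y : ℝ) : Set ℤ[X][X] :=
  {P | P ∈ Irr D ∧ ‖value t P‖ ≤ (height P : ℝ) ^ (-w) ∧ (height P : ℝ) ≤ Y}

lemma value_eq (t : ℂ) (P : ℤ[X][X]) : value t P = Pool.Agent.TH647.NR.vl t P := by
  unfold value Pool.Agent.TH647.NR.vl
  rw [eval_map, eval₂_eq_sum, Polynomial.sum_def]
  rfl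

/-- **Algebraic near relations between `e` and `t`.** -/
theorem result (D : ℕ) (hD : 1 ≤ D) :
    (∀ κ T : ℝ, 4 * (D : ℝ) ^ 3 + 2 * D < κ → ∃ c : ℝ, 0 < c ∧ ∀ t : ℂ, ‖t‖ ≤ T →
      ∀ P ∈ Irr D, ∀ Q ∈ Irr D, P ≠ Q → ∀ H : ℝ, (height P : ℝ) ≤ H → (height Q : ℝ) ≤ H →
        c * H ^ (-κ) ≤ max ‖value t P‖ ‖value t Q‖) ∧
    (∀ (t : ℂ) (w ρ : ℝ), 1 < ρ → ρ < w / (4 * (D : ℝ) ^ 3 + 2 * D) → ∃ C : ℝ, ∀ Y : ℝ, 3 ≤ Y →
      (Near t D w Y).Finite ∧
        ((Near t D w Y).ncard : ℝ) ≤ Real.log (Real.log Y) / Real.log ρ + C) := by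
  simp only [value_eq]
  have hIR : Irr D = Pool.Agent.TH647.NR.IR D := rfl
  have hDR : (1 : ℝ) ≤ D := by exact_mod_cast hD
  have hE0 : 0 < 4 * (D : ℝ) ^ 3 + 2 * D := by positivity
  refine ⟨fun κ T hκ => ?_, fun t w ρ hρ hρw => ?_⟩
  · obtain ⟨C, hC, h⟩ := Pool.Agent.TH647.NR.core D hD κ hκ (max 1 T) (le_max_left _ _)
    exact ⟨C, hC, fun t ht P hP Q hQ hne H hPH hQH =>
      h t (ht.trans (le_max_right _ _)) P hP Q hQ hne H hPH hQH⟩
  · have hw : 4 * (D : ℝ) ^ 3 + 2 * D < w := by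
      rw [lt_div_iff₀ hE0] at hρw
      nlinarith
    obtain ⟨C, hC⟩ := Pool.Agent.TH647.NR.sparse_alg D hD t w ρ hw hρ hρw
    have hset : ∀ Y : ℝ, Near t D w Y = {P ∈ {P : ℤ[X][X] | P ∈ Pool.Agent.TH647.NR.IR D ∧
        ‖Pool.Agent.TH647.NR.vl t P‖ ≤ (Pool.Agent.TH647.NR.hgt P : ℝ) ^ (-w)} |
        (Pool.Agent.TH647.NR.hgt P : ℝ) ≤ Y} := by
      intro Y
      ext P
      unfold Near
      rw [Set.mem_ofPred_eq, value_eq]
      constructor
      · rintro ⟨h1, h2, h3⟩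
        exact ⟨⟨h1, h2⟩, h3⟩
      · rintro ⟨⟨h1, h2⟩, h3⟩
        exact ⟨h1, h2, h3⟩
    refine ⟨C, fun Y hY => ?_⟩
    rw [hset]
    exact hC Y hY

end Pool.Agent.Results.MP_a49cf6_nt.AlgebraicNearRelations
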