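import Mathlib
import Pool.Agent.TH293.E5.Gen

/-!
# MP_a49cf6_nt: the numbers `π + e^α`, `π e^α`, `π^(e^α)`, `e^(e^α)` for almost all algebraic `α`

The numbers `π + e`, `π e`, `π^e`, `e^e` of the question are the values at `α = 1` of four families
of numbers indexed by the algebraic numbers `α`. For all algebraic `α` with at most five exceptions
at least three of the four numbers are transcendental (if `log π` is rational: the first two are
transcendental, with at most two exceptions). For all algebraic `α` with at most one exception, at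
least two of the three numbers `π + e^α`, `π e^α`, `e^(e^α)` are transcendental.

More generally let `b_1, …, b_n` be positive real numbers such that the numbers `log b_i` and
`log b_i / log b_j` are irrational. For all algebraic `α ≠ 0` with at most `n² + 3 n + 1` exceptions
at most one of the `n + 3` numbers `π + e^α`, `π e^α`, `e^(e^α)`, `b_i^(e^α)` is algebraic; if the
`b_i` are algebraic then there are at most `(n + 1)(n + 2) / 2` exceptions.

The proof: if two of the numbers are algebraic then `s e^α` and `t e^α` are linear forms in `1` and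
logarithms of algebraic numbers, with algebraic coefficients, where `s`, `t` are two of the numbers
`1`, `π`, `log b_i`. By the strong six exponentials theorem (D. Roy) and the theorem of Lindemann
and Weierstrass this happens for at most two `α` if `s`, `t` are linearly independent over the
algebraic numbers; one of them is `α = 0` if `s` and `t` are themselves such linear forms. The
cases in which `s`, `t` are dependent are treated with the theorems of Baker and of Gelfond and
Schneider.
-/

set_option autoImplicit false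

namespace Pool.Agent.Results.MP_a49cf6_nt.AllButFiveExponents

/-- At most one of the numbers `v i` is algebraic. -/
def AtMostOneAlgebraic {ι : Type} (v : ι → ℂ) : Prop :=
  ∀ i j, IsAlgebraic ℚ (v i) → IsAlgebraic ℚ (v j) → i = j

/-- The `n + 3` numbers `π + e^α`, `π e^α`, `e^(e^α)` and `b_i^(e^α)`, `i < n`. -/
noncomputable def numbers {n : ℕ} (b : Fin n → ℝ) (α : ℂ) : Fin 3 ⊕ Fin n → ℂ :=
  Sum.elim ![(Real.pi : ℂ) + Complex.exp α, Real.pi * Complex.exp α, Complex.exp (Complex.exp α)]
    (fun i => (b i : ℂ) ^ Complex.exp α)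

theorem amo_of {n : ℕ} {v : Fin n → ℂ} (h : ∃ i, ∀ j, j ≠ i → Transcendental ℚ (v j)) :
    AtMostOneAlgebraic v := by
  obtain ⟨i, hi⟩ := h
  intro j k hj hk
  have h1 : j = i := by
    by_contra hne
    exact hi j hne hj
  have h2 : k = i := by
    by_contra hne
    exact hi k hne hk
  rw [h1, h2]

theorem result :
    -- positive real bases `b_1, …, b_n`
    (∀ (n : ℕ) (b : Fin n → ℝ), (∀ i, 0 < b i) → (∀ i, Irrational (Real.log (b i))) →
      (∀ i j, i ≠ j → Irrational (Real.log (b i) / Real.log (b j))) →
      ∃ S : Finset ℂ, S.card ≤ n ^ 2 + 3 * n + 1 ∧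
        ((∀ i, IsAlgebraic ℚ (b i)) → S.card ≤ (n + 2).choose 2) ∧
        ∀ α : ℂ, IsAlgebraic ℚ α → α ≠ 0 → α ∉ S → AtMostOneAlgebraic (numbers b α)) ∧
    -- the case without bases, `n = 0`: the exception is real
    (∃ a : ℝ, ∀ α : ℂ, IsAlgebraic ℚ α → α ≠ a → AtMostOneAlgebraic
      ![(Real.pi : ℂ) + Complex.exp α, Real.pi * Complex.exp α, Complex.exp (Complex.exp α)]) ∧
    -- the case of the base `π`
    ∃ S : Finset ℂ, S.card ≤ 5 ∧ ∀ α : ℂ, IsAlgebraic ℚ α → α ∉ S →
      AtMostOneAlgebraic ![(Real.pi : ℂ) + Complex.exp α, Real.pi * Complex.exp α,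
        (Real.pi : ℂ) ^ Complex.exp α, Complex.exp (Complex.exp α)] ∨
      (¬ Irrational (Real.log Real.pi) ∧ Transcendental ℚ ((Real.pi : ℂ) + Complex.exp α) ∧
        Transcendental ℚ ((Real.pi : ℂ) * Complex.exp α)) := by
  refine ⟨?_, ?_, ?_⟩
  · intro n b hb h1 h2
    by_cases h3 : ∀ i, IsAlgebraic ℚ (b i)
    · obtain ⟨S, h4, h5⟩ := Pool.Agent.TH293.E5.gen_alg b hb (fun i => by
        intro h
        have := h1 i
        rw [h, Real.log_one] at this
        exact this.ne_zero rfl) h3 h2
      refine ⟨S, h4.trans ?_, fun _ => h4, h5⟩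
      have e : (n + 2).choose 2 * 2 = (n + 2) * (n + 1) := by
        rw [Nat.choose_two_right]
        exact Nat.div_mul_cancel (Nat.even_mul_pred_self (n + 2)).two_dvd
      nlinarith
    · obtain ⟨S, h4, h5⟩ := Pool.Agent.TH293.E5.gen_real b hb h1 h2
      exact ⟨S, h4, fun h => absurd h h3, h5⟩
  · obtain ⟨a, ha⟩ := Pool.Agent.TH293.E5.trio_main
    exact ⟨a, fun α hα hαa => amo_of (ha α hα hαa)⟩
  · by_cases hlog : Irrational (Real.log Real.pi)
    · obtain ⟨S, h1, h2⟩ := Pool.Agent.TH293.E5.four_main hlog
      exact ⟨S, h1, fun α hα hS => Or.inl (amo_of (h2 α hα hS))⟩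
    · refine ⟨{0, -((Real.log Real.pi : ℝ) : ℂ)}, Finset.card_le_two.trans (by norm_num), ?_⟩
      intro α hα hS
      rw [Finset.mem_insert, Finset.mem_singleton] at hS
      push Not at hS
      exact Or.inr ⟨hlog, Pool.Agent.TH293.E5.rational_case hlog α hα hS.1 hS.2⟩

end Pool.Agent.Results.MP_a49cf6_nt.AllButFiveExponents
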