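import Pool.Agent.TH647.NR.PairsC

/-!
# Simultaneous approximation of two of the numbers `t + e`, `t - e`, `t e`, `t / e`

For every real `t` other than `0, e, -e` (for instance `t = π`) no two of the four numbers are
simultaneously well approximable by rationals with the same denominator; the exponents (`2` for
the pairs `(t ± e, t e)`, `1` for the others) are sharp for a residual set of `t`.
-/

set_option autoImplicit false

namespace Pool.Agent.Results.MP_a49cf6_nt.SimultaneousPairs

open Pool.Agent.TH647.NR Real Filter Topology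

theorem result :
    -- (1) uniform lower bound
    (∀ T ε : ℝ, 1 ≤ T → 0 < ε → ∃ c : ℝ, 0 < c ∧
      ∀ t : ℝ, |t| ≤ T → 1 / T ≤ |t| → 1 / T ≤ |t + exp 1| → 1 / T ≤ |t - exp 1| →
        ∀ i j : Fin 4, i ≠ j → ∀ q : ℕ, 1 ≤ q → ∀ p r : ℤ,
          c * (q : ℝ) ^ (-(expo i j) - ε) ≤ max |q * four t i - p| |q * four t j - r|) ∧
    -- (2) if one of the four numbers is rational, the others are badly approximable
    (∀ t : ℝ, t ≠ 0 → t + exp 1 ≠ 0 → t - exp 1 ≠ 0 →
      ∀ (i : Fin 4) (x : ℚ), four t i = x → ∀ j : Fin 4, i ≠ j → ∀ ε : ℝ, 0 < ε →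
        ∃ c : ℝ, 0 < c ∧ ∀ q : ℕ, 1 ≤ q → ∀ r : ℤ,
          c * (q : ℝ) ^ (-(expo i j) - ε) ≤ |q * four t j - r|) ∧
    -- (3) sharpness
    (∀ᶠ t in residual ℝ, ∀ i j : Fin 4, i ≠ j → ∀ ε : ℝ, 0 < ε → ∃ᶠ q : ℕ in atTop,
      ∃ p r : ℤ, max |q * four t i - p| |q * four t j - r| ≤ (q : ℝ) ^ (-(expo i j) + ε)) := by
  refine ⟨low_all, fun t h0 h1 h2 i x hx j hij ε hε =>
    one_rational t h0 h1 h2 i x hx j hij ε hε, ?_⟩
  rw [eventually_countable_forall]
  intro i
  rw [eventually_countable_forall]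
  intro j
  by_cases hij : i = j
  · exact Eventually.of_forall fun t h => absurd hij h
  · filter_upwards [(dens_all i j hij).toResidual (four_cont i) (four_cont j)] with t ht _
    exact ht

end Pool.Agent.Results.MP_a49cf6_nt.SimultaneousPairs
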