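import Pool.Agent.W254.HP.Prod
import Pool.Agent.W254.HP.Rat
import Pool.Agent.H340R2.LW
import Pool.Agent.H364R2.PiE

/-!
# Exponentials of algebraic numbers against all linear forms in logarithms

Let `LinForms` be the set of all numbers `β₀ + β₁ l₁ + ... + βₙ lₙ` with algebraic `βⱼ` and
`e ^ lⱼ` algebraic.  Let `lam ≠ 0` be any complex number.  For a finite set `B` of algebraic numbers
let `W B` be the space of all sums `lam ∑ c_b e ^ b` (`b ∈ B`, `c_b` algebraic) which belong to
`LinForms`.  Then `|A| dim (W B) ≤ |A + B| + |A| (|A| - 1)` for all finite sets `A` of algebraic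
numbers.  Let `T` be the set of the algebraic numbers `α` for which `lam * e ^ α` belongs to
`LinForms`.  Every nonzero number is at most twice a difference of two elements of `T`, and for every
finite set `S` of algebraic numbers `T ∩ S` has `n` elements with `n (n - 1) ≤ 2 (|S - S| - 1)`.
The same holds for the rational powers `t ^ q` of a transcendental number `t > 0`, for instance `π`,
and for all characters of abelian groups with values linearly independent over the algebraic numbers.

The numbers `e ^ (e ^ α)`, `π + e ^ α` (`lam = 1`), `π ^ (e ^ α)` (`lam = log π`) and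
`π ^ (π ^ q)` (`t = π`, `lam = log π`) are transcendental for all `α`, `q` outside these sets.
-/

set_option autoImplicit false

namespace Pool.Agent.Results.MP_a49cf6_nt.ThinExponents

open Module Finset
open scoped Pointwise Classical
open Pool.Agent.H301R2.SSE (QB mem_QB Lt Lt_rep Lt_mul Lt_alg Lt_log)

/-- The linear forms in `1` and logarithms of algebraic numbers, with algebraic coefficients. -/
noncomputable def LinForms : Submodule (algebraicClosure ℚ ℂ) ℂ :=
  Submodule.span (algebraicClosure ℚ ℂ) ({1} ∪ {l : ℂ | IsAlgebraic ℚ (Complex.exp l)})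

/-- The linear combinations of the numbers `lam * χ b`, `b ∈ B`, with algebraic coefficients, which
are linear forms in `1` and logarithms. -/
noncomputable def W {Γ : Type} (χ : Γ → ℂ) (lam : ℂ) (B : Finset Γ) :
    Submodule (algebraicClosure ℚ ℂ) ℂ :=
  Submodule.span (algebraicClosure ℚ ℂ) ((fun b => lam * χ b) '' (B : Set Γ)) ⊓ LinForms

/-- The numbers `lam * χ γ` are rarely linear forms in `1` and logarithms. -/
structure Sparse {Γ : Type} [AddCommGroup Γ] (χ : Γ → ℂ) (lam : ℂ) : Prop where
  dim_le : ∀ A B : Finset Γ,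
    A.card * Module.finrank (algebraicClosure ℚ ℂ) (W χ lam B) ≤
      (A + B).card + A.card * (A.card - 1)
  twice : ∀ δ : Γ, δ ≠ 0 →
    {γ : Γ | lam * χ γ ∈ LinForms ∧ lam * χ (γ + δ) ∈ LinForms}.encard ≤ 2
  count : ∀ S : Finset Γ, (S.filter (fun γ => lam * χ γ ∈ LinForms)).card *
    ((S.filter (fun γ => lam * χ γ ∈ LinForms)).card - 1) ≤ 2 * ((S - S).card - 1)

/-- Thin subsets of an additive group. -/
structure Thin {Γ : Type} [AddCommGroup Γ] (T : Set Γ) : Prop where
  expand : ∀ A B : Finset Γ, (B : Set Γ) ⊆ T →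
    A.card * B.card ≤ (A + B).card + A.card * (A.card - 1)
  twice : ∀ δ : Γ, δ ≠ 0 → {x : Γ | x ∈ T ∧ x + δ ∈ T}.encard ≤ 2
  count : ∀ S : Finset Γ, (S.filter (· ∈ T)).card * ((S.filter (· ∈ T)).card - 1) ≤
    2 * ((S - S).card - 1)

section thin

variable {Γ : Type} [AddCommGroup Γ] {T : Set Γ}

theorem pair_le (h : ∀ A B : Finset Γ, (B : Set Γ) ⊆ T →
    A.card * B.card ≤ (A + B).card + A.card * (A.card - 1)) {δ : Γ} (hδ : δ ≠ 0)
    (E : Finset Γ) (hE : ∀ x ∈ E, x ∈ T ∧ x + δ ∈ T) : E.card ≤ 2 := by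
  set B : Finset Γ := E ∪ E.image (· + δ) with hB
  have hBT : (B : Set Γ) ⊆ T := by
    intro x hx
    rw [hB, Finset.coe_union, Set.mem_union] at hx
    rcases hx with hx | hx
    · exact (hE x hx).1
    · obtain ⟨y, hy, rfl⟩ := Finset.mem_image.mp (Finset.mem_coe.mp hx)
      exact (hE y hy).2
  have h1 := h {0, δ} B hBT
  have hA : ({0, δ} : Finset Γ).card = 2 := Finset.card_pair (Ne.symm hδ)
  have hAB : ({0, δ} : Finset Γ) + B = B ∪ B.image (· + δ) := by
    ext x
    simp only [Finset.mem_add, Finset.mem_union, Finset.mem_insert, Finset.mem_singleton,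
      Finset.mem_image]
    constructor
    · rintro ⟨a, rfl | rfl, b, hb, rfl⟩
      · left; simpa using hb
      · right; exact ⟨b, hb, add_comm _ _⟩
    · rintro (hx | ⟨b, hb, rfl⟩)
      · exact ⟨0, Or.inl rfl, x, hx, zero_add _⟩
      · exact ⟨δ, Or.inr rfl, b, hb, add_comm _ _⟩
  have hcardB' : (B.image (· + δ)).card = B.card :=
    Finset.card_image_of_injective _ (add_left_injective δ)
  have h2 := Finset.card_union_add_card_inter B (B.image (· + δ))
  have h3 : (E.image (· + δ)) ⊆ B ∩ B.image (· + δ) := by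
    intro x hx
    rw [Finset.mem_inter]
    refine ⟨Finset.mem_union_right _ hx, ?_⟩
    obtain ⟨y, hy, rfl⟩ := Finset.mem_image.mp hx
    exact Finset.mem_image.mpr ⟨y, Finset.mem_union_left _ hy, rfl⟩
  have h4 := Finset.card_le_card h3
  rw [Finset.card_image_of_injective _ (add_left_injective δ)] at h4
  rw [hA, hAB] at h1
  omega

theorem thin_of_expand (h : ∀ A B : Finset Γ, (B : Set Γ) ⊆ T →
    A.card * B.card ≤ (A + B).card + A.card * (A.card - 1)) : Thin T := by
  refine ⟨h, ?_, ?_⟩
  · intro δ hδ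
    by_contra hcon
    push Not at hcon
    have h3 : (3 : ℕ∞) ≤ {x : Γ | x ∈ T ∧ x + δ ∈ T}.encard := by
      have := Order.add_one_le_of_lt hcon
      have h23 : (2 : ℕ∞) + 1 = 3 := by norm_num
      rwa [h23] at this
    obtain ⟨E, hE, hcard⟩ := Set.exists_subset_encard_eq h3
    have hfin : E.Finite := Set.finite_of_encard_eq_coe (k := 3) (by simpa using hcard)
    have h4 := pair_le h hδ hfin.toFinset (fun x hx => hE (hfin.mem_toFinset.mp hx))
    have h5 : (hfin.toFinset.card : ℕ∞) = 3 := by
      rw [← hcard, hfin.encard_eq_coe_toFinset_card]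
    have h6 : hfin.toFinset.card = 3 := by exact_mod_cast h5
    omega
  · intro S
    set U := S.filter (· ∈ T) with hU
    rcases S.eq_empty_or_nonempty with hS | hS
    · subst hS; simp [hU]
    have h1 : U.offDiag.card = U.card * (U.card - 1) := by
      rw [Finset.offDiag_card, Nat.mul_sub, mul_one]
    rw [← h1]
    have h2 : ∀ p ∈ U.offDiag, p.2 - p.1 ∈ (S - S).erase 0 := by
      intro p hp
      rw [Finset.mem_offDiag] at hp
      rw [Finset.mem_erase]
      refine ⟨fun h0 => hp.2.2 (sub_eq_zero.mp h0).symm, ?_⟩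
      exact Finset.sub_mem_sub (Finset.mem_filter.mp hp.2.1).1 (Finset.mem_filter.mp hp.1).1
    have h3 := Finset.card_le_mul_card_image_of_maps_to h2 2 (by
      intro δ hδ
      have hδ0 : δ ≠ 0 := (Finset.mem_erase.mp hδ).1
      have h4 := pair_le h hδ0 ((U.offDiag.filter (fun p => p.2 - p.1 = δ)).image Prod.fst) (by
        intro x hx
        obtain ⟨p, hp, rfl⟩ := Finset.mem_image.mp hx
        rw [Finset.mem_filter, Finset.mem_offDiag] at hp
        refine ⟨(Finset.mem_filter.mp hp.1.1).2, ?_⟩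
        have : p.1 + δ = p.2 := by rw [← hp.2]; abel
        rw [this]
        exact (Finset.mem_filter.mp hp.1.2.1).2)
      rw [Finset.card_image_of_injOn] at h4
      · exact h4
      · intro p hp p' hp' hpp
        have e1 := (Finset.mem_filter.mp (Finset.mem_coe.mp hp)).2
        have e2 := (Finset.mem_filter.mp (Finset.mem_coe.mp hp')).2
        have hpp' : p.1 = p'.1 := hpp
        refine Prod.ext hpp' ?_
        have : p.2 - p.1 = p'.2 - p'.1 := by rw [e1, e2]
        rw [hpp'] at this
        exact sub_left_injective this)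
    rw [Finset.card_erase_of_mem] at h3
    · exact h3
    · obtain ⟨s, hs⟩ := hS
      have := Finset.sub_mem_sub hs hs
      rwa [sub_self] at this

end thin

theorem fr {Γ : Type} (f : Γ → ℂ) (hf : LinearIndependent QB f) (C : Finset Γ) :
    finrank QB (Submodule.span QB (f '' (C : Set Γ))) = C.card := by
  have h1 : LinearIndependent QB (fun c : C => f c) := hf.comp _ Subtype.val_injective
  have h2 := finrank_span_eq_card h1
  rw [Fintype.card_coe] at h2
  have h3 : Set.range (fun c : C => f c) = f '' (C : Set Γ) := by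
    ext z
    constructor
    · rintro ⟨c, rfl⟩; exact ⟨c, c.2, rfl⟩
    · rintro ⟨c, hc, rfl⟩; exact ⟨⟨c, hc⟩, rfl⟩
  rw [← h2, h3]

theorem fd {Γ : Type} (f : Γ → ℂ) (C : Finset Γ) :
    FiniteDimensional QB (Submodule.span QB (f '' (C : Set Γ))) :=
  FiniteDimensional.span_of_finite QB ((C.finite_toSet).image f)

theorem scaled {Γ : Type} {χ : Γ → ℂ} (hχ : LinearIndependent QB χ) {lam : ℂ} (hlam : lam ≠ 0) :
    LinearIndependent QB (fun γ : Γ => lam * χ γ) := by
  have := hχ.map' (LinearMap.mulLeft QB lam) (by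
    rw [LinearMap.ker_eq_bot]
    intro a b hab
    exact mul_left_cancel₀ hlam hab)
  exact this

/-- The dimension inequality for characters with linearly independent values. -/
theorem dim_char {Γ : Type} [AddCommGroup Γ] (χ : Γ → ℂ) (hmul : ∀ a b, χ (a + b) = χ a * χ b)
    (hχ : LinearIndependent QB χ) {lam : ℂ} (hlam : lam ≠ 0) (A B : Finset Γ) :
    A.card * finrank QB (W χ lam B) ≤ (A + B).card + A.card * (A.card - 1) := by
  have hχ' := scaled hχ hlam
  have := fd χ A
  have := fd (fun γ => lam * χ γ) B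
  have := fd (fun γ => lam * χ γ) (A + B)
  have : FiniteDimensional QB (W χ lam B) :=
    Submodule.finiteDimensional_of_le (inf_le_left :
      W χ lam B ≤ Submodule.span QB ((fun γ => lam * χ γ) '' (B : Set Γ)))
  have h := Pool.Agent.W254.HP.product_le (Submodule.span QB (χ '' (A : Set Γ)))
    (W χ lam B)
    (Submodule.span QB ((fun γ => lam * χ γ) '' ((A + B : Finset Γ) : Set Γ)))
    (inf_le_right : W χ lam B ≤ LinForms)
    (by
      intro x hx w hw
      have : x * w ∈ (Submodule.span QB (χ '' (A : Set Γ))) *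
          (Submodule.span QB ((fun γ => lam * χ γ) '' (B : Set Γ))) :=
        Submodule.mul_mem_mul hx hw.1
      rw [Submodule.span_mul_span] at this
      refine Submodule.span_mono ?_ this
      rintro _ ⟨_, ⟨a, ha, rfl⟩, _, ⟨b, hb, rfl⟩, rfl⟩
      refine ⟨a + b, ?_, ?_⟩
      · exact_mod_cast Finset.add_mem_add (Finset.mem_coe.mp ha) (Finset.mem_coe.mp hb)
      · simp only [hmul]; ring)
  rw [fr χ hχ, fr _ hχ'] at h
  exact h

theorem sparse_char {Γ : Type} [AddCommGroup Γ] (χ : Γ → ℂ)
    (hmul : ∀ a b, χ (a + b) = χ a * χ b)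
    (hχ : LinearIndependent QB χ) {lam : ℂ} (hlam : lam ≠ 0) : Sparse χ lam := by
  have h1 : Thin {γ : Γ | lam * χ γ ∈ LinForms} := by
    apply thin_of_expand
    intro A B hB
    have h2 := dim_char χ hmul hχ hlam A B
    have h3 : W χ lam B = Submodule.span QB ((fun γ => lam * χ γ) '' (B : Set Γ)) := by
      apply inf_eq_left.mpr
      rw [Submodule.span_le]
      rintro _ ⟨b, hb, rfl⟩
      exact hB hb
    rw [h3, fr _ (scaled hχ hlam)] at h2
    exact h2
  exact ⟨dim_char χ hmul hχ hlam, h1.twice, h1.count⟩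

/-- Lindemann-Weierstrass. -/
theorem exp_indep : LinearIndependent QB (fun α : QB => Complex.exp (α : ℂ)) := by
  rw [linearIndependent_iff']
  intro s g hg i hi
  have h := Pool.Agent.H340R2.LW.lindemann_weierstrass s (fun α : QB => (α : ℂ))
    (fun α => (g α : ℂ)) (fun α _ => mem_QB.mp α.2) (fun α _ => mem_QB.mp (g α).2)
    (fun a _ b _ hab => Subtype.ext hab) (by
      rw [← hg]
      apply Finset.sum_congr rfl
      intro a _
      rw [Algebra.smul_def]; rfl) i hi
  exact Subtype.ext h

/-- The rational powers of a positive transcendental number are linearly independent. -/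
theorem rpow_indep {t : ℝ} (h0 : 0 < t) (ht : Transcendental ℚ t) :
    LinearIndependent QB (fun q : ℚ => ((t ^ (q : ℝ) : ℝ) : ℂ)) := by
  rw [linearIndependent_iff']
  intro s g hg
  set N : ℕ := ∏ q ∈ s, q.den with hN
  have hN0 : 0 < N := Finset.prod_pos (fun q _ => q.pos)
  set M : ℤ := ∑ q ∈ s, |q.num * ((N / q.den : ℕ) : ℤ)| with hM
  set u : ℝ := t ^ ((N : ℝ)⁻¹) with hu
  have hu0 : 0 < u := Real.rpow_pos_of_pos h0 _
  have huN : u ^ N = t := by
    rw [hu, ← Real.rpow_natCast, ← Real.rpow_mul h0.le, inv_mul_cancel₀ (by positivity),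
      Real.rpow_one]
  have hut : Transcendental ℚ (u : ℂ) := by
    intro h
    apply ht
    have h1 : IsAlgebraic ℚ ((u : ℂ) ^ N) := h.pow N
    have h2 : IsAlgebraic ℚ ((t : ℝ) : ℂ) := by
      rw [← huN]; push_cast; exact h1
    exact (isAlgebraic_algebraMap_iff (algebraMap ℝ ℂ).injective).mp h2
  let m : ℚ → ℕ := fun q => (q.num * ((N / q.den : ℕ) : ℤ) + M).toNat
  have hm : ∀ q ∈ s, ((m q : ℕ) : ℝ) = (q : ℝ) * N + M := by
    intro q hq
    have h1 : 0 ≤ q.num * ((N / q.den : ℕ) : ℤ) + M := by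
      have h2 : |q.num * ((N / q.den : ℕ) : ℤ)| ≤ M := by
        rw [hM]
        exact Finset.single_le_sum (f := fun q : ℚ => |q.num * ((N / q.den : ℕ) : ℤ)|)
          (fun _ _ => abs_nonneg _) hq
      have h3 := neg_abs_le (q.num * ((N / q.den : ℕ) : ℤ))
      linarith
    have h2 : ((m q : ℕ) : ℤ) = q.num * ((N / q.den : ℕ) : ℤ) + M := Int.toNat_of_nonneg h1
    have h3 : ((m q : ℕ) : ℝ) = (((m q : ℕ) : ℤ) : ℝ) := by push_cast; rfl
    obtain ⟨c, hc⟩ : q.den ∣ N := Finset.dvd_prod_of_mem _ hq
    have h5 : N / q.den = c := by rw [hc, Nat.mul_div_cancel_left _ q.pos]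
    have hd0 : (q.den : ℝ) ≠ 0 := by exact_mod_cast q.den_nz
    have h4 : (q : ℝ) = (q.num : ℝ) / (q.den : ℝ) := by exact_mod_cast (Rat.num_div_den q).symm
    have h6 : (N : ℝ) = (q.den : ℝ) * c := by rw [hc]; push_cast; ring
    rw [h3, h2, h5, h4, h6]
    push_cast
    field_simp
  have hinj : ∀ q ∈ s, ∀ q' ∈ s, m q = m q' → q = q' := by
    intro q hq q' hq' h
    have h1 : (q : ℝ) * N + M = (q' : ℝ) * N + M := by rw [← hm q hq, ← hm q' hq', h]
    have h2 : (q : ℝ) * N = (q' : ℝ) * N := by linarith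
    have h3 := mul_right_cancel₀ (by positivity : (N : ℝ) ≠ 0) h2
    exact_mod_cast h3
  have hpow : ∀ q ∈ s, (u : ℂ) ^ (m q) = (u : ℂ) ^ (M : ℤ) * ((t ^ (q : ℝ) : ℝ) : ℂ) := by
    intro q hq
    have h1 : u ^ (m q) = u ^ (M : ℤ) * t ^ (q : ℝ) := by
      rw [← Real.rpow_natCast, hm q hq, Real.rpow_add hu0, ← Real.rpow_intCast, mul_comm]
      congr 1
      rw [hu, ← Real.rpow_mul h0.le]
      congr 1
      field_simp
    exact_mod_cast congrArg (fun x : ℝ => (x : ℂ)) h1
  set P : Polynomial QB := ∑ q ∈ s, Polynomial.monomial (m q) (g q) with hP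
  have h1 : Polynomial.aeval (u : ℂ) P = 0 := by
    rw [hP, map_sum]
    have : ∀ q ∈ s, Polynomial.aeval (u : ℂ) (Polynomial.monomial (m q) (g q)) =
        (u : ℂ) ^ (M : ℤ) * (g q • ((t ^ (q : ℝ) : ℝ) : ℂ)) := by
      intro q hq
      rw [Polynomial.aeval_monomial, hpow q hq, Algebra.smul_def]
      ring
    rw [Finset.sum_congr rfl this, ← Finset.mul_sum, hg, mul_zero]
  have h2 : P = 0 := by
    by_contra h3
    exact Pool.Agent.W254.HP.aeval_ne_zero hut h3 h1
  intro q hq
  have h3 : P.coeff (m q) = g q := by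
    rw [hP, Polynomial.finsetSum_coeff, Finset.sum_eq_single q]
    · rw [Polynomial.coeff_monomial, if_pos rfl]
    · intro q' hq' hne
      rw [Polynomial.coeff_monomial, if_neg (fun h' => hne (hinj q' hq' q hq h'))]
    · intro h; exact absurd hq h
  rw [← h3, h2, Polynomial.coeff_zero]

/-- **Main result.** (1) A homomorphism `χ` from an abelian group to the multiplicative group of
complex numbers with values which are linearly independent over the algebraic numbers: the numbers
`lam * χ γ` are rarely linear forms in `1` and logarithms, for every `lam ≠ 0`.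
(2) This applies to the exponentials of all algebraic numbers.
(3) It applies to the rational powers of a positive transcendental number. -/
theorem result :
    (∀ (Γ : Type) [AddCommGroup Γ] (χ : Γ → ℂ), (∀ a b, χ (a + b) = χ a * χ b) →
      LinearIndependent (algebraicClosure ℚ ℂ) χ → ∀ lam : ℂ, lam ≠ 0 → Sparse χ lam) ∧
    (∀ lam : ℂ, lam ≠ 0 → Sparse (fun α : algebraicClosure ℚ ℂ => Complex.exp (α : ℂ)) lam) ∧
    (∀ t : ℝ, 0 < t → Transcendental ℚ t → ∀ lam : ℂ, lam ≠ 0 →
      Sparse (fun q : ℚ => ((t ^ (q : ℝ) : ℝ) : ℂ)) lam) := by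
  refine ⟨fun Γ _ χ hm hχ lam hlam => sparse_char χ hm hχ hlam, fun lam hlam => ?_,
    fun t h0 ht lam hlam => ?_⟩
  · exact sparse_char (fun α : QB => Complex.exp (α : ℂ)) (fun a b => by
      show Complex.exp (((a + b : QB) : ℂ)) = _
      rw [← Complex.exp_add]; rfl) exp_indep hlam
  · exact sparse_char (fun q : ℚ => ((t ^ (q : ℝ) : ℝ) : ℂ)) (fun a b => by
      push_cast
      rw [← Complex.ofReal_mul, ← Real.rpow_add h0]) (rpow_indep h0 ht) hlam

end Pool.Agent.Results.MP_a49cf6_nt.ThinExponents
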